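import Pool.Agent.K1H22.SR.Stm2

/-! Piece SR2-SUB1: substitution in semilinear sets. -/

set_option autoImplicit false

namespace Pool.Agent.K1H90.SR2

open Pool.Agent.K1H22.SR2 Set
open scoped Pointwise

lemma mem_A {M : Type} [AddCommMonoid M] (D : Set M) (v : M × ℕ) :
    v ∈ AddSubmonoid.closure ((AddMonoidHom.inl M ℕ '' D) + {((0 : M), 1)}) ↔
      ∃ l : List M, (∀ p ∈ l, p ∈ D) ∧ l.length = v.2 ∧ l.sum = v.1 := by
  constructor
  · intro h
    induction h using AddSubmonoid.closure_induction with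
    | mem x hx =>
      obtain ⟨a, ⟨d, hd, rfl⟩, b, hb, rfl⟩ := hx
      rw [mem_singleton_iff] at hb
      subst hb
      refine ⟨[d], ?_, ?_, ?_⟩
      · intro p hp
        rw [List.mem_singleton] at hp
        rw [hp]; exact hd
      · simp
      · simp
    | zero => exact ⟨[], by simp, rfl, rfl⟩
    | add x y _ _ ihx ihy =>
      obtain ⟨l, h1, h2, h3⟩ := ihx
      obtain ⟨l', h1', h2', h3'⟩ := ihy
      refine ⟨l ++ l', ?_, ?_, ?_⟩
      · intro p hp
        rcases List.mem_append.1 hp with h | h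
        · exact h1 p h
        · exact h1' p h
      · rw [List.length_append, h2, h2']; rfl
      · rw [List.sum_append, h3, h3']; rfl
  · rintro ⟨l, h1, h2, h3⟩
    have key : ∀ l : List M, (∀ p ∈ l, p ∈ D) → ((l.sum, l.length) : M × ℕ) ∈
        AddSubmonoid.closure ((AddMonoidHom.inl M ℕ '' D) + {((0 : M), 1)}) := by
      intro l
      induction l with
      | nil => intro _; exact zero_mem _
      | cons a l ih =>
        intro h
        have h4 := ih fun p hp => h p (List.mem_cons_of_mem _ hp)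
        have h5 : ((a, 1) : M × ℕ) ∈
            AddSubmonoid.closure ((AddMonoidHom.inl M ℕ '' D) + {((0 : M), 1)}) := by
          refine AddSubmonoid.subset_closure ?_
          refine ⟨(a, 0), ⟨a, h a List.mem_cons_self, rfl⟩, (0, 1), rfl, ?_⟩
          simp
        have h6 := add_mem h5 h4
        have h7 : (((a :: l).sum, (a :: l).length) : M × ℕ) = (a, 1) + (l.sum, l.length) := by
          rw [List.sum_cons, List.length_cons, Prod.mk_add_mk, add_comm 1]
        rw [h7]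
        exact h6
    have := key l h1
    rw [h2, h3] at this
    exact this

theorem t_SUB1 : S_SUB1 := by
  intro M _ _ D L hD hL
  have hN : AddMonoid.FG ℕ := inferInstance
  have hMN : AddMonoid.FG (M × ℕ) := inferInstance
  have hMN2 : AddMonoid.FG ((M × ℕ) × (M × ℕ)) := inferInstance
  set A : AddSubmonoid (M × ℕ) :=
    AddSubmonoid.closure ((AddMonoidHom.inl M ℕ '' D) + {((0 : M), 1)}) with hA
  have hAs : IsSemilinearSet (A : Set (M × ℕ)) :=
    ((hD.image (AddMonoidHom.inl M ℕ)).add (IsSemilinearSet.singleton ((0 : M), 1))).closure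
  have h1 : IsSemilinearSet ((AddMonoidHom.inl (M × ℕ) (M × ℕ) '' L) +
      (AddMonoidHom.inr (M × ℕ) (M × ℕ) '' (A : Set (M × ℕ)))) :=
    (hL.image (AddMonoidHom.inl (M × ℕ) (M × ℕ))).add
      (hAs.image (AddMonoidHom.inr (M × ℕ) (M × ℕ)))
  have h2 : IsSemilinearSet {p : (M × ℕ) × (M × ℕ) |
      (0 : ℕ) + ((AddMonoidHom.snd M ℕ).comp (AddMonoidHom.fst (M × ℕ) (M × ℕ))) p =
      0 + ((AddMonoidHom.snd M ℕ).comp (AddMonoidHom.snd (M × ℕ) (M × ℕ))) p} :=
    isSemilinearSet_setOfPred_eq _ _ _ _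
  have h3 := (h1.inter h2).image
    ((AddMonoidHom.fst M ℕ).comp (AddMonoidHom.fst (M × ℕ) (M × ℕ)) +
      (AddMonoidHom.fst M ℕ).comp (AddMonoidHom.snd (M × ℕ) (M × ℕ)))
  convert h3 using 1
  ext v
  constructor
  · rintro ⟨x, hx, l, hl, hlen, rfl⟩
    refine ⟨(x, (l.sum, l.length)), ⟨?_, ?_⟩, ?_⟩
    · refine ⟨(x, 0), ⟨x, hx, rfl⟩, (0, (l.sum, l.length)), ⟨(l.sum, l.length), ?_, rfl⟩, ?_⟩
      · exact (mem_A D _).2 ⟨l, hl, rfl, rfl⟩
      · simp
    · change (0 : ℕ) + x.2 = 0 + l.length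
      rw [hlen]
    · rfl
  · rintro ⟨p, ⟨⟨a, ⟨x, hx, rfl⟩, b, ⟨y, hy, rfl⟩, rfl⟩, heq⟩, rfl⟩
    obtain ⟨l, hl, hlen, hsum⟩ := (mem_A D y).1 hy
    refine ⟨x, hx, l, hl, ?_, ?_⟩
    · have h4 : (0 : ℕ) + (x.2 + 0) = 0 + (0 + y.2) := heq
      omega
    · change (x.1 + 0) + (0 + y.1) = x.1 + l.sum
      rw [hsum, add_zero, zero_add]

end Pool.Agent.K1H90.SR2
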